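import Pool.Agent.H16.CX.Basic

/-!
# Twins are equivariant
-/

set_option autoImplicit false

open Set Topology Filter MeasureTheory

namespace Pool.Agent.H84.CXS

open Pool.Agent.H16.CX

lemma swap_conj (g : Equiv.Perm ℕ) (a b n : ℕ) :
    g (Equiv.swap a b n) = Equiv.swap (g a) (g b) (g n) := by
  by_cases h1 : n = a
  · subst h1; simp
  · by_cases h2 : n = b
    · subst h2; simp
    · rw [Equiv.swap_apply_of_ne_of_ne h1 h2, Equiv.swap_apply_of_ne_of_ne]
      · exact fun h => h1 (g.injective h)
      · exact fun h => h2 (g.injective h)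

theorem pf_twg : T_TWG := by
  intro X _ R x g a b
  constructor
  · intro h c hc
    have h1 := h (c.trans (pe g⁻¹)) (fun j hj => hc j (by
      have : g⁻¹ (c j) = b := hj
      rw [← this]; simp))
    rw [← R.comp, ← R.comp] at h1
    have e1 : (c.trans (pe g⁻¹)).trans (pe g) = c := by
      ext j
      show g (g⁻¹ (c j)) = c j
      simp
    have e2 : ((c.trans (pe g⁻¹)).trans (pe (Equiv.swap a b))).trans (pe g)
        = c.trans (pe (Equiv.swap (g a) (g b))) := by
      ext j
      show g (Equiv.swap a b (g⁻¹ (c j))) = Equiv.swap (g a) (g b) (c j)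
      rw [swap_conj]
      simp
    rw [e1, e2] at h1
    exact h1
  · intro h c hc
    have h1 := h (c.trans (pe g)) (fun j hj => hc j (g.injective hj))
    rw [← R.comp, ← R.comp]
    have e2 : (c.trans (pe (Equiv.swap a b))).trans (pe g)
        = (c.trans (pe g)).trans (pe (Equiv.swap (g a) (g b))) := by
      ext j
      show g (Equiv.swap a b (c j)) = Equiv.swap (g a) (g b) (g (c j))
      rw [swap_conj]
    rw [e2]
    exact h1

end Pool.Agent.H84.CXS
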